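import Pool.Agent.H64GT.COmega

set_option autoImplicit false

/-! # Exhaustions of sequential `c_ω`-spaces -/

open Set Topology Filter

namespace Pool.Agent.H64GT

universe u v w

/-! ### Countably compact sets in sequential Hausdorff spaces -/

section Basic

variable {X : Type u} [TopologicalSpace X] {Y : Type v} [TopologicalSpace Y]

theorem isClosed_of_cc [T2Space X] [SequentialSpace X] {A : Set X} (hA : IsCountablyCompact A) :
    IsClosed A := by
  refine IsSeqClosed.isClosed fun x p hx hp => ?_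
  obtain ⟨a, ha, hc⟩ := hA.seq_clusterPt x (Eventually.of_forall hx)
  have hne : (𝓝 a ⊓ 𝓝 p).NeBot := by
    have h1 : (𝓝 a ⊓ map x atTop).NeBot := hc
    exact h1.mono (inf_le_inf le_rfl hp)
  have : a = p := eq_of_nhds_neBot hne
  exact this ▸ ha

theorem sequentialSpace_of_isClosed [SequentialSpace X] {A : Set X} (hA : IsClosed A) :
    SequentialSpace A := by
  refine ⟨fun s hs => ?_⟩
  have h : IsSeqClosed ((fun x : A => (x : X)) '' s) := by
    intro x p hx hp
    have hxA : ∀ n, x n ∈ A := fun n => by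
      obtain ⟨y, _, hy⟩ := hx n
      exact hy ▸ y.2
    have hpA : p ∈ A := hA.isSeqClosed hxA hp
    refine ⟨⟨p, hpA⟩, ?_, rfl⟩
    refine hs (x := fun n => ⟨x n, hxA n⟩) (fun n => ?_) ?_
    · obtain ⟨y, hy, hyx⟩ := hx n
      have : y = ⟨x n, hxA n⟩ := Subtype.ext hyx
      exact this ▸ hy
    · exact tendsto_subtype_rng.2 hp
  have h2 := h.isClosed.preimage (continuous_subtype_val : Continuous (fun x : A => (x : X)))
  rwa [preimage_image_eq _ Subtype.val_injective] at h2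

theorem isSeqCompact_of_cc [T2Space X] [SequentialSpace X] {A : Set X}
    (hA : IsCountablyCompact A) : IsSeqCompact A := by
  have hc := isClosed_of_cc hA
  have : SequentialSpace A := sequentialSpace_of_isClosed hc
  have : CountablyCompactSpace A := isCountablyCompact_iff_countablyCompactSpace.1 hA
  exact isSeqCompact_iff_seqCompactSpace.2 inferInstance

theorem isSeqCompact_prod {A : Set X} {B : Set Y} (hA : IsSeqCompact A) (hB : IsSeqCompact B) :
    IsSeqCompact (A ×ˢ B) := by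
  intro x hx
  obtain ⟨a, ha, φ, hφ, hφa⟩ := hA (fun n => (hx n).1)
  obtain ⟨b, hb, ψ, hψ, hψb⟩ := hB (x := fun n => (x (φ n)).2) (fun n => (hx (φ n)).2)
  refine ⟨(a, b), ⟨ha, hb⟩, φ ∘ ψ, hφ.comp hψ, ?_⟩
  rw [Prod.tendsto_iff]
  exact ⟨hφa.comp hψ.tendsto_atTop, hψb⟩

theorem isClosed_inter_of_preimage {A C : Set X} (hA : IsClosed A)
    (h : IsClosed ((fun x : A => (x : X)) ⁻¹' C)) : IsClosed (C ∩ A) := by
  have h2 := hA.isClosedEmbedding_subtypeVal.isClosedMap _ h
  have h3 : (Subtype.val : A → X) '' ((fun x : A => (x : X)) ⁻¹' C) = C ∩ A :=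
    Subtype.image_preimage_val A C ▸ inter_comm _ _
  rwa [h3] at h2

/-- The projection of a sequentially closed set along a sequentially compact set is closed. -/
theorem isClosed_proj_right [SequentialSpace Y] {A : Set X} (hA : IsSeqCompact A)
    {F : Set (X × Y)} (hF : IsSeqClosed F) : IsClosed {b : Y | ∃ a ∈ A, (a, b) ∈ F} := by
  refine IsSeqClosed.isClosed fun b q hb hq => ?_
  choose a haA haF using hb
  obtain ⟨a', ha', φ, hφ, ht⟩ := hA haA
  exact ⟨a', ha', hF (fun n => haF (φ n)) (ht.prodMk_nhds (hq.comp hφ.tendsto_atTop))⟩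

theorem isClosed_proj_left [SequentialSpace X] {B : Set Y} (hB : IsSeqCompact B)
    {F : Set (X × Y)} (hF : IsSeqClosed F) : IsClosed {a : X | ∃ b ∈ B, (a, b) ∈ F} := by
  refine IsSeqClosed.isClosed fun a q ha hq => ?_
  choose b hbB hbF using ha
  obtain ⟨b', hb', φ, hφ, ht⟩ := hB hbB
  exact ⟨b', hb', hF (fun n => hbF (φ n)) ((hq.comp hφ.tendsto_atTop).prodMk_nhds ht)⟩

end Basic

/-! ### Exhaustions -/

/-- An increasing sequence of closed, sequentially compact sets which covers the space and determines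
its topology. -/
structure Exhaustion {X : Type u} [TopologicalSpace X] (K : ℕ → Set X) : Prop where
  mono : Monotone K
  closed : ∀ n, IsClosed (K n)
  seqc : ∀ n, IsSeqCompact (K n)
  cover : ∀ x, ∃ n, x ∈ K n
  det : ∀ C : Set X, (∀ n, IsClosed (C ∩ K n)) → IsClosed C

section Exh

variable {X : Type u} [TopologicalSpace X] {Y : Type v} [TopologicalSpace Y]

theorem exhaustion_of [T2Space X] [SequentialSpace X] {K : ℕ → Set X} (hm : Monotone K)
    (hc : ∀ n, IsCountablyCompact (K n)) (hU : ⋃ n, K n = univ)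
    (hd : ∀ U : Set X, (∀ n, IsOpen ((fun x : K n => (x : X)) ⁻¹' U)) → IsOpen U) :
    Exhaustion K where
  mono := hm
  closed n := isClosed_of_cc (hc n)
  seqc n := isSeqCompact_of_cc (hc n)
  cover x := by
    have : x ∈ ⋃ n, K n := hU ▸ mem_univ x
    simpa using this
  det C hC := by
    rw [← isOpen_compl_iff]
    refine hd _ fun n => ?_
    have h := (hC n).preimage (continuous_subtype_val : Continuous (fun x : K n => (x : X)))
    have h2 : (fun x : K n => (x : X)) ⁻¹' Cᶜ = ((fun x : K n => (x : X)) ⁻¹' (C ∩ K n))ᶜ := by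
      ext x
      simp
    rw [h2]
    exact h.isOpen_compl

theorem Exhaustion.isOpen_iff {K : ℕ → Set X} (hK : Exhaustion K) (U : Set X) :
    IsOpen U ↔ ∀ n, IsOpen ((fun x : K n => (x : X)) ⁻¹' U) := by
  refine ⟨fun h n => h.preimage continuous_subtype_val, fun h => ?_⟩
  rw [← isClosed_compl_iff]
  refine hK.det _ fun n => isClosed_inter_of_preimage (hK.closed n) ?_
  rw [preimage_compl]
  exact (h n).isClosed_compl

theorem Exhaustion.isOpen_of {K : ℕ → Set X} (hK : Exhaustion K) {V : Set X}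
    (h : ∀ n, ∀ a ∈ V, a ∈ K n → ∃ G, IsOpen G ∧ a ∈ G ∧ G ∩ K n ⊆ V) : IsOpen V := by
  rw [← isClosed_compl_iff]
  refine hK.det _ fun n => ?_
  rw [← isOpen_compl_iff, isOpen_iff_mem_nhds]
  intro a ha
  by_cases haK : a ∈ K n
  · have haV : a ∈ V := by
      by_contra hV
      exact ha ⟨hV, haK⟩
    obtain ⟨G, hG, haG, hGV⟩ := h n a haV haK
    filter_upwards [hG.mem_nhds haG] with b hb
    rintro ⟨hbV, hbK⟩
    exact hbV (hGV ⟨hb, hbK⟩)
  · filter_upwards [(hK.closed n).isOpen_compl.mem_nhds haK] with b hb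
    rintro ⟨_, hbK⟩
    exact hb hbK

theorem Exhaustion.shift {K : ℕ → Set X} (hK : Exhaustion K) (N : ℕ) :
    Exhaustion (fun n => K (n + N)) where
  mono := fun a b h => hK.mono (by omega)
  closed n := hK.closed _
  seqc n := hK.seqc _
  cover x := by
    obtain ⟨n, hn⟩ := hK.cover x
    exact ⟨n, hK.mono (by omega) hn⟩
  det C hC := hK.det C fun n => by
    have h := (hC n).inter (hK.closed n)
    have h2 : C ∩ K (n + N) ∩ K n = C ∩ K n := by
      ext x
      constructor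
      · rintro ⟨⟨h1, _⟩, h3⟩
        exact ⟨h1, h3⟩
      · rintro ⟨h1, h3⟩
        exact ⟨⟨h1, hK.mono (by omega) h3⟩, h3⟩
    rwa [h2] at h

/-- A set of points `x m ∉ K m` has no convergent subsequence. -/
theorem Exhaustion.not_tendsto [T1Space X] {K : ℕ → Set X} (hK : Exhaustion K) {x : ℕ → X}
    (hx : ∀ n, x n ∉ K n) (p : X) (φ : ℕ → ℕ) (hφ : StrictMono φ) :
    ¬ Tendsto (x ∘ φ) atTop (𝓝 p) := by
  intro ht
  obtain ⟨n, hn⟩ := hK.cover p
  have hS : IsClosed ((range (x ∘ φ)) \ {p}) := by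
    refine hK.det _ fun m => ?_
    have hfin : ((range (x ∘ φ)) \ {p} ∩ K m).Finite := by
      refine ((finite_Iio m).image (x ∘ φ)).subset ?_
      rintro y ⟨⟨⟨k, rfl⟩, _⟩, hy⟩
      refine ⟨k, ?_, rfl⟩
      by_contra hk
      rw [mem_Iio, not_lt] at hk
      exact hx (φ k) (hK.mono (hk.trans (hφ.id_le k)) hy)
    exact hfin.isClosed
  have hev : ∀ᶠ k in atTop, (x ∘ φ) k ∈ (range (x ∘ φ)) \ {p} := by
    filter_upwards [eventually_ge_atTop n] with k hk
    refine ⟨⟨k, rfl⟩, fun h => ?_⟩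
    have h' : x (φ k) = p := h
    exact hx (φ k) (hK.mono (hk.trans (hφ.id_le k)) (h' ▸ hn))
  exact (hS.mem_of_tendsto ht hev).2 rfl

theorem Exhaustion.subset_of_seqCompact [T1Space X] {K : ℕ → Set X} (hK : Exhaustion K)
    {A : Set X} (hA : IsSeqCompact A) : ∃ n, A ⊆ K n := by
  by_contra! h
  have h' : ∀ n, ∃ x ∈ A, x ∉ K n := fun n => not_subset.1 (h n)
  choose x hxA hxK using h'
  obtain ⟨a, _, φ, hφ, ht⟩ := hA hxA
  exact hK.not_tendsto hxK a φ hφ ht

theorem Exhaustion.subset_of_tendsto [T2Space X] [SequentialSpace X] {K : ℕ → Set X}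
    (hK : Exhaustion K) {x : ℕ → X} {p : X} (h : Tendsto x atTop (𝓝 p)) :
    ∃ n, p ∈ K n ∧ ∀ k, x k ∈ K n := by
  obtain ⟨n, hn⟩ := hK.subset_of_seqCompact
    (isSeqCompact_of_cc (IsCompact.isCountablyCompact h.isCompact_insert_range))
  exact ⟨n, hn (mem_insert _ _), fun k => hn (mem_insert_of_mem _ ⟨k, rfl⟩)⟩

theorem exhaustion_prod [T2Space X] [T2Space Y] [SequentialSpace X] [SequentialSpace Y]
    [SequentialSpace (X × Y)] {K : ℕ → Set X} {L : ℕ → Set Y} (hK : Exhaustion K)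
    (hL : Exhaustion L) : Exhaustion (fun n => K n ×ˢ L n) where
  mono := fun _ _ h => prod_mono (hK.mono h) (hL.mono h)
  closed n := (hK.closed n).prod (hL.closed n)
  seqc n := isSeqCompact_prod (hK.seqc n) (hL.seqc n)
  cover := fun ⟨x, y⟩ => by
    obtain ⟨n₁, hn₁⟩ := hK.cover x
    obtain ⟨n₂, hn₂⟩ := hL.cover y
    exact ⟨max n₁ n₂, hK.mono (le_max_left _ _) hn₁, hL.mono (le_max_right _ _) hn₂⟩
  det C hC := by
    refine IsSeqClosed.isClosed fun z p hz hp => ?_
    have hp1 : Tendsto (fun n => (z n).1) atTop (𝓝 p.1) := (Prod.tendsto_iff _ _).1 hp |>.1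
    have hp2 : Tendsto (fun n => (z n).2) atTop (𝓝 p.2) := (Prod.tendsto_iff _ _).1 hp |>.2
    obtain ⟨n₁, -, h₁⟩ := hK.subset_of_tendsto hp1
    obtain ⟨n₂, -, h₂⟩ := hL.subset_of_tendsto hp2
    exact ((hC (max n₁ n₂)).isSeqClosed (fun k => ⟨hz k, hK.mono (le_max_left _ _) (h₁ k),
      hL.mono (le_max_right _ _) (h₂ k)⟩) hp).1

theorem isClosed_iUnion_of_disjoint {K : ℕ → Set X} (hK : Exhaustion K) {C : ℕ → Set X}
    (hC : ∀ n, IsClosed (C n)) (hd : ∀ n, Disjoint (C n) (K n)) : IsClosed (⋃ n, C n) := by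
  refine hK.det _ fun m => ?_
  have h : (⋃ n, C n) ∩ K m = (⋃ n ∈ Iio m, C n) ∩ K m := by
    ext x
    constructor
    · rintro ⟨h1, h2⟩
      obtain ⟨n, hn⟩ := mem_iUnion.1 h1
      refine ⟨mem_iUnion₂.2 ⟨n, ?_, hn⟩, h2⟩
      by_contra hnm
      rw [mem_Iio, not_lt] at hnm
      exact disjoint_left.1 (hd n) hn (hK.mono hnm h2)
    · rintro ⟨h1, h2⟩
      obtain ⟨n, _, hn⟩ := mem_iUnion₂.1 h1
      exact ⟨mem_iUnion.2 ⟨n, hn⟩, h2⟩
  rw [h]
  exact ((finite_Iio m).isClosed_biUnion fun n _ => hC n).inter (hK.closed m)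

theorem exists_exhaustion [T2Space X] [SequentialSpace X] (h : IsCOmega X) :
    ∃ K : ℕ → Set X, Exhaustion K := by
  obtain ⟨𝒦, hc, hcc, hcov, hdet⟩ := h
  have h0 : ((𝒦 ∪ {∅}) : Set (Set X)).Countable := hc.union (countable_singleton _)
  obtain ⟨f, hf⟩ := h0.exists_eq_range ⟨∅, Or.inr rfl⟩
  have hfc : ∀ n, IsCountablyCompact (f n) := by
    intro n
    have : f n ∈ 𝒦 ∪ {∅} := hf ▸ mem_range_self n
    rcases this with h | h
    · exact hcc _ h
    · rw [mem_singleton_iff.1 h]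
      exact isCountablyCompact_empty
  refine ⟨fun n => ⋃ i ∈ Iic n, f i, exhaustion_of ?_ ?_ ?_ ?_⟩
  · intro a b hab
    exact biUnion_subset_biUnion_left (Iic_subset_Iic.2 hab)
  · intro n
    exact (finite_Iic n).isCountablyCompact_biUnion fun i _ => hfc i
  · refine eq_univ_of_forall fun x => ?_
    have hx : x ∈ ⋃₀ 𝒦 := hcov ▸ mem_univ x
    obtain ⟨K, hK, hxK⟩ := hx
    have : K ∈ range f := hf ▸ Or.inl hK
    obtain ⟨n, rfl⟩ := this
    exact mem_iUnion.2 ⟨n, mem_iUnion₂.2 ⟨n, mem_Iic.2 le_rfl, hxK⟩⟩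
  · intro U hU
    rw [hdet]
    intro K hK
    have : K ∈ range f := hf ▸ Or.inl hK
    obtain ⟨n, rfl⟩ := this
    have hsub : f n ⊆ ⋃ i ∈ Iic n, f i := fun x hx =>
      mem_iUnion₂.2 ⟨n, mem_Iic.2 le_rfl, hx⟩
    exact (hU n).preimage (continuous_inclusion hsub)

theorem Exhaustion.isCOmega {K : ℕ → Set X} (hK : Exhaustion K) : IsCOmega X := by
  refine ⟨range K, countable_range K, ?_, ?_, fun U => ?_⟩
  · rintro _ ⟨n, rfl⟩
    exact (hK.seqc n).isCountablyCompact
  · refine eq_univ_of_forall fun x => ?_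
    obtain ⟨n, hn⟩ := hK.cover x
    exact ⟨K n, mem_range_self n, hn⟩
  · rw [hK.isOpen_iff]
    constructor
    · rintro h _ ⟨n, rfl⟩
      exact h n
    · intro h n
      exact h _ (mem_range_self n)

end Exh

end Pool.Agent.H64GT
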