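import Mathlib

set_option autoImplicit false

/-! # `c_ω`-spaces -/

open Set Topology Filter

namespace Pool.Agent.H64GT

universe u

/-- `X` is a `c_ω`-space: there is a countable family of countably compact subspaces covering `X`
which determines the topology of `X`. -/
def IsCOmega (X : Type u) [TopologicalSpace X] : Prop :=
  ∃ 𝒦 : Set (Set X), 𝒦.Countable ∧ (∀ K ∈ 𝒦, IsCountablyCompact K) ∧ ⋃₀ 𝒦 = univ ∧
    ∀ U : Set X, IsOpen U ↔ ∀ K ∈ 𝒦, IsOpen ((fun x : K => (x : X)) ⁻¹' U)

end Pool.Agent.H64GT
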