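import Mathlib

set_option autoImplicit false

/-! # Properties of spaces and points used in the theorem on finite products -/

open Set Topology Filter

namespace Pool.Agent.H64GT

universe u

/-- The topology of `X` is determined by an increasing sequence of countably compact and locally
compact subspaces covering `X`. -/
def HasLocallyCompactPieces (X : Type u) [TopologicalSpace X] : Prop :=
  ∃ K : ℕ → Set X, Monotone K ∧ (∀ n, IsCountablyCompact (K n) ∧ LocallyCompactSpace (K n)) ∧
    ⋃ n, K n = univ ∧ ∀ U : Set X, IsOpen U ↔ ∀ n, IsOpen ((fun x : K n => (x : X)) ⁻¹' U)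

/-- The topology of `X` is determined by an increasing sequence `K 0 ⊆ K 1 ⊆ ...` of countably compact
subspaces covering `X`, such that `K n` and every closed set disjoint from `K (n + 1)` have disjoint
neighbourhoods. -/
def HasSeparatedPieces (X : Type u) [TopologicalSpace X] : Prop :=
  ∃ K : ℕ → Set X, Monotone K ∧ (∀ n, IsCountablyCompact (K n)) ∧ ⋃ n, K n = univ ∧
    (∀ U : Set X, IsOpen U ↔ ∀ n, IsOpen ((fun x : K n => (x : X)) ⁻¹' U)) ∧
    ∀ n, ∀ E : Set X, IsClosed E → Disjoint (K (n + 1)) E → SeparatedNhds (K n) E

/-- The topology of `X` is the topology of a topological group. -/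
def IsGroupSpace (X : Type u) [TopologicalSpace X] : Prop :=
  ∃ g : Group X, @IsTopologicalGroup X _ g

/-- Every countably compact set and every closed set disjoint from it have disjoint
neighbourhoods. -/
def SeparatesCountablyCompact (X : Type u) [TopologicalSpace X] : Prop :=
  ∀ C E : Set X, IsCountablyCompact C → IsClosed E → Disjoint C E → SeparatedNhds C E

/-- The neighbourhoods of `x` are determined by the countably compact sets containing `x`: a set `U`
is a neighbourhood of `x` as soon as, for every countably compact set `C` containing `x`, the set
`U ∩ C` is a neighbourhood of `x` in the subspace `C`. -/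
def IsDeterminedAt {X : Type u} [TopologicalSpace X] (x : X) : Prop :=
  ∀ U : Set X, (∀ C : Set X, IsCountablyCompact C → x ∈ C → U ∈ 𝓝[C] x) → U ∈ 𝓝 x

/-- The sequential order of `X` at `x` is at most `k`: every set `A` with `x` in its closure has `x` in
its `k`-fold sequential closure. -/
def SequentialOrderLE {X : Type u} [TopologicalSpace X] (x : X) (k : ℕ) : Prop :=
  ∀ A : Set X, x ∈ closure A → x ∈ seqClosure^[k] A

/-- Player II has a winning strategy in the game `G(x, W)`. Player II plays countably compact sets
`C 0, C 1, ...`, player I plays closed sets `E 0, E 1, ...`. The first move is `C 0 ⊆ W`, the set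
`E n` must be disjoint from `C n`, and the set `C (n + 1)` must be disjoint from `E n`. Player II
wins if the set of all points lying in all but finitely many `C n` is a neighbourhood of `x`.
A strategy `σ` of player II gives the next move of player II for every list of moves of player I. -/
def PlayerTwoWins {X : Type u} [TopologicalSpace X] (x : X) (W : Set X) : Prop :=
  ∃ σ : List (Set X) → Set X, σ [] ⊆ W ∧ (∀ l, IsCountablyCompact (σ l)) ∧
    (∀ l E, IsClosed E → Disjoint (σ l) E → Disjoint (σ (l ++ [E])) E) ∧
    ∀ E : ℕ → Set X, (∀ n, IsClosed (E n) ∧ Disjoint (σ ((List.range n).map E)) (E n)) →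
      {a : X | ∀ᶠ n in atTop, a ∈ σ ((List.range n).map E)} ∈ 𝓝 x

/-- Points of the first kind: points with a countably compact neighbourhood, points whose
neighbourhoods are determined by the countably compact sets, and points of finite sequential order
which have a closed neighbourhood which is normal or in which countably compact sets and closed sets
disjoint from them are separated. -/
def IsFirstKind {X : Type u} [TopologicalSpace X] (x : X) : Prop :=
  (∃ N ∈ 𝓝 x, IsCountablyCompact N) ∨ IsDeterminedAt x ∨
    ((∃ k, SequentialOrderLE x k) ∧
      ∃ N ∈ 𝓝 x, IsClosed N ∧ (NormalSpace N ∨ SeparatesCountablyCompact N))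

/-- Points of the second kind: points which have a closed neighbourhood which is normal or in which
countably compact sets and closed sets disjoint from them are separated, and points `x` such that
player II has a winning strategy in the game `G(x, W)` for every neighbourhood `W` of `x`. -/
def IsSecondKind {X : Type u} [TopologicalSpace X] (x : X) : Prop :=
  (∃ N ∈ 𝓝 x, IsClosed N ∧ (NormalSpace N ∨ SeparatesCountablyCompact N)) ∨
    ∀ W ∈ 𝓝 x, PlayerTwoWins x W

end Pool.Agent.H64GT
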