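import Pool.Agent.H64GT.Base
import Pool.Agent.H64GT.Kinds

set_option autoImplicit false

/-! # Products of sequential `c_ω`-spaces -/

open Set Topology Filter

namespace Pool.Agent.H64GT

universe u v w

section Determined

variable {X : Type u} [TopologicalSpace X] {Y : Type v} [TopologicalSpace Y]

/-- The space is sequential at the point `z`. -/
def SeqAt {Z : Type w} [TopologicalSpace Z] (z : Z) : Prop :=
  ∀ F : Set Z, IsSeqClosed F → z ∉ F → Fᶜ ∈ 𝓝 z

theorem sequentialSpace_of_seqAt {Z : Type w} [TopologicalSpace Z] (h : ∀ z : Z, SeqAt z) :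
    SequentialSpace Z := by
  refine ⟨fun F hF => ?_⟩
  rw [← isOpen_compl_iff, isOpen_iff_mem_nhds]
  exact fun z hz => h z F hF hz

/-- If the neighbourhoods of the point `x` of `X` are determined by the countably compact sets, then
the product of `X` with every sequential regular `c_ω`-space is sequential at `(x, y)`. -/
theorem seqAt_of_determined [T3Space X] [T3Space Y] [SequentialSpace X]
    [SequentialSpace Y] {K : ℕ → Set X} {L : ℕ → Set Y} (hK : Exhaustion K) (hL : Exhaustion L)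
    {x : X} (h : IsDeterminedAt x) (y : Y) : SeqAt (x, y) := by
  intro F hF hxy
  have hs : IsClosed {b : Y | (x, b) ∈ F} :=
    IsSeqClosed.isClosed fun b q hb hq => hF hb (tendsto_const_nhds.prodMk_nhds hq)
  obtain ⟨B, hB, hBc, hBF⟩ := exists_mem_nhds_isClosed_subset (hs.isOpen_compl.mem_nhds hxy)
  obtain ⟨M, hM⟩ := hL.cover y
  have hL' := hL.shift M
  have hBL : ∀ n, IsSeqCompact (B ∩ L (n + M)) := fun n =>
    isSeqCompact_of_cc ((hL'.seqc n).isCountablyCompact.of_isClosed_subset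
      (hBc.inter (hL'.closed n)) inter_subset_right)
  have hA : ∀ n, ∃ A ∈ 𝓝 x, IsClosed A ∧ A ⊆ {a : X | ∃ b ∈ B ∩ L (n + M), (a, b) ∈ F}ᶜ := by
    intro n
    refine exists_mem_nhds_isClosed_subset
      ((isClosed_proj_left (hBL n) hF).isOpen_compl.mem_nhds ?_)
    rintro ⟨b, hb, hab⟩
    exact hBF hb.1 hab
  choose A hAx hAc hAF using hA
  have hKA : ∀ n, IsSeqCompact (A n ∩ K n) := fun n =>
    isSeqCompact_of_cc ((hK.seqc n).isCountablyCompact.of_isClosed_subset
      ((hAc n).inter (hK.closed n)) inter_subset_right)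
  have hH : IsClosed (⋃ n, {b : Y | ∃ a ∈ A n ∩ K n, (a, b) ∈ F} ∩ B) := by
    refine isClosed_iUnion_of_disjoint hL' (fun n => (isClosed_proj_right (hKA n) hF).inter hBc)
      fun n => ?_
    rw [disjoint_left]
    rintro b ⟨⟨a, ha, hab⟩, hbB⟩ hbL
    exact hAF n ha.1 ⟨b, ⟨hbB, hbL⟩, hab⟩
  have hyH : y ∉ ⋃ n, {b : Y | ∃ a ∈ A n ∩ K n, (a, b) ∈ F} ∩ B := by
    intro hy
    obtain ⟨n, ⟨a, ha, hay⟩, hyB⟩ := mem_iUnion.1 hy
    exact hAF n ha.1 ⟨y, ⟨hyB, hL.mono (Nat.le_add_left _ _) hM⟩, hay⟩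
  have hV : B \ (⋃ n, {b : Y | ∃ a ∈ A n ∩ K n, (a, b) ∈ F} ∩ B) ∈ 𝓝 y :=
    inter_mem hB (hH.isOpen_compl.mem_nhds hyH)
  have hU : {a : X | ∀ b ∈ B \ (⋃ n, {b : Y | ∃ a ∈ A n ∩ K n, (a, b) ∈ F} ∩ B), (a, b) ∉ F}
      ∈ 𝓝 x := by
    refine h _ fun C hC hxC => ?_
    obtain ⟨n, hn⟩ := hK.subset_of_seqCompact (isSeqCompact_of_cc hC)
    filter_upwards [mem_nhdsWithin_of_mem_nhds (hAx n), self_mem_nhdsWithin] with a haA haC
    rintro b ⟨hbB, hbH⟩ hab
    exact hbH (mem_iUnion.2 ⟨n, ⟨a, ⟨haA, hn haC⟩, hab⟩, hbB⟩)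
  filter_upwards [prod_mem_nhds hU hV] with p hp
  exact hp.1 p.2 hp.2

/-- Points with a countably compact neighbourhood. -/
theorem isDeterminedAt_of_cc {x : X} (h : ∃ N ∈ 𝓝 x, IsCountablyCompact N) :
    IsDeterminedAt x := by
  obtain ⟨N, hN, hNc⟩ := h
  intro U hU
  have h1 := hU N hNc (mem_of_mem_nhds hN)
  rwa [nhdsWithin_eq_nhds.2 hN] at h1

/-- Points of Fréchet-Urysohn spaces. -/
theorem isDeterminedAt_of_frechet [FrechetUrysohnSpace X] (x : X) : IsDeterminedAt x := by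
  intro U hU
  by_contra hx
  have hx' : x ∈ closure Uᶜ := by
    rw [closure_compl, mem_compl_iff, mem_interior_iff_mem_nhds]
    exact hx
  obtain ⟨z, hzU, hz⟩ := mem_closure_iff_seq_limit.1 hx'
  have h1 := hU _ (hz.isCompact_insert_range).isCountablyCompact (mem_insert _ _)
  have h2 : Tendsto z atTop (𝓝[insert x (range z)] x) :=
    tendsto_nhdsWithin_iff.2 ⟨hz, Eventually.of_forall fun n => mem_insert_of_mem _ ⟨n, rfl⟩⟩
  obtain ⟨n, hn⟩ := (h2.eventually h1).exists
  exact hzU n hn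

end Determined

/-! ### The game on a product -/

section Game

variable {X : Type u} [TopologicalSpace X] {Y : Type v} [TopologicalSpace Y]

theorem machine_run {α : Type u} {S : Type w} (t : S → α → S) (s0 : S) (E : ℕ → α) (n : ℕ) :
    ((List.range (n + 1)).map E).foldl t s0 = t (((List.range n).map E).foldl t s0) (E n) := by
  simp [List.range_succ]

omit [TopologicalSpace X] in
/-- Strategies coming from a system with states. -/
theorem exists_strategy {S : Type w} (C : S → Set X) (P : Set X → Prop)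
    (R : S → Set X → S → Prop)
    (hR : ∀ s E, P E → Disjoint (C s) E → ∃ s', Disjoint (C s') E ∧ R s E s') (s0 : S) :
    ∃ σ : List (Set X) → S, σ [] = s0 ∧
      (∀ l E, P E → Disjoint (C (σ l)) E → Disjoint (C (σ (l ++ [E]))) E) ∧
      ∀ E : ℕ → Set X, (∀ n, P (E n) ∧ Disjoint (C (σ ((List.range n).map E))) (E n)) →
        ∀ n, R (σ ((List.range n).map E)) (E n) (σ ((List.range (n + 1)).map E)) := by
  classical
  let t : S → Set X → S := fun s E =>
    if h : P E ∧ Disjoint (C s) E then (hR s E h.1 h.2).choose else s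
  have ht : ∀ s E, P E → Disjoint (C s) E → Disjoint (C (t s E)) E ∧ R s E (t s E) := by
    intro s E h1 h2
    have : t s E = (hR s E h1 h2).choose := dif_pos ⟨h1, h2⟩
    rw [this]
    exact (hR s E h1 h2).choose_spec
  refine ⟨fun l => l.foldl t s0, rfl, ?_, ?_⟩
  · intro l E h1 h2
    have : (l ++ [E]).foldl t s0 = t (l.foldl t s0) E := by simp
    beta_reduce at h2 ⊢
    rw [this]
    exact (ht _ _ h1 h2).1
  · intro E hE n
    beta_reduce at hE ⊢
    rw [machine_run]
    exact (ht _ _ (hE n).1 (hE n).2).2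

/-- The product strategy. -/
theorem prod_strategy [T2Space X] [T2Space Y] [SequentialSpace X] [SequentialSpace Y]
    {x : X} {y : Y} {σ : List (Set X) → Set X} {τ : List (Set Y) → Set Y}
    (hσc : ∀ l, IsCountablyCompact (σ l))
    (hσd : ∀ l E, IsClosed E → Disjoint (σ l) E → Disjoint (σ (l ++ [E])) E)
    (hσw : ∀ E : ℕ → Set X, (∀ n, IsClosed (E n) ∧ Disjoint (σ ((List.range n).map E)) (E n)) →
      {a : X | ∀ᶠ n in atTop, a ∈ σ ((List.range n).map E)} ∈ 𝓝 x)
    (hτc : ∀ l, IsCountablyCompact (τ l))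
    (hτd : ∀ l E, IsClosed E → Disjoint (τ l) E → Disjoint (τ (l ++ [E])) E)
    (hτw : ∀ E : ℕ → Set Y, (∀ n, IsClosed (E n) ∧ Disjoint (τ ((List.range n).map E)) (E n)) →
      {b : Y | ∀ᶠ n in atTop, b ∈ τ ((List.range n).map E)} ∈ 𝓝 y) :
    ∃ ρ : List (Set (X × Y)) → Set (X × Y), ρ [] = σ [] ×ˢ τ [] ∧ (∀ l, IsCountablyCompact (ρ l)) ∧
      (∀ l E, IsSeqClosed E → Disjoint (ρ l) E → Disjoint (ρ (l ++ [E])) E) ∧
      ∀ E : ℕ → Set (X × Y),
        (∀ n, IsSeqClosed (E n) ∧ Disjoint (ρ ((List.range n).map E)) (E n)) →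
        {a : X × Y | ∀ᶠ n in atTop, a ∈ ρ ((List.range n).map E)} ∈ 𝓝 (x, y) := by
  let C : List (Set X) × List (Set Y) → Set (X × Y) := fun s => σ s.1 ×ˢ τ s.2
  let R : List (Set X) × List (Set Y) → Set (X × Y) → List (Set X) × List (Set Y) → Prop :=
    fun s _ s' => ∃ A B, s'.1 = s.1 ++ [A] ∧ s'.2 = s.2 ++ [B] ∧ IsClosed A ∧ IsClosed B ∧
      Disjoint (σ s.1) A ∧ Disjoint (τ s.2) B
  have hR : ∀ s E, IsSeqClosed E → Disjoint (C s) E → ∃ s', Disjoint (C s') E ∧ R s E s' := by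
    rintro ⟨l, m⟩ E hE hd
    have hA : IsClosed {a : X | ∃ b ∈ τ m, (a, b) ∈ E} :=
      isClosed_proj_left (isSeqCompact_of_cc (hτc m)) hE
    have hAd : Disjoint (σ l) {a : X | ∃ b ∈ τ m, (a, b) ∈ E} := by
      rw [disjoint_left]
      rintro a ha ⟨b, hb, hab⟩
      exact disjoint_left.1 hd ⟨ha, hb⟩ hab
    have hA' := hσd l _ hA hAd
    have hB : IsClosed {b : Y | ∃ a ∈ σ (l ++ [{a : X | ∃ b ∈ τ m, (a, b) ∈ E}]), (a, b) ∈ E} :=
      isClosed_proj_right (isSeqCompact_of_cc (hσc _)) hE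
    have hBd : Disjoint (τ m)
        {b : Y | ∃ a ∈ σ (l ++ [{a : X | ∃ b ∈ τ m, (a, b) ∈ E}]), (a, b) ∈ E} := by
      rw [disjoint_left]
      rintro b hb ⟨a, ha, hab⟩
      exact disjoint_left.1 hA' ha ⟨b, hb, hab⟩
    have hB' := hτd m _ hB hBd
    refine ⟨(l ++ [{a : X | ∃ b ∈ τ m, (a, b) ∈ E}],
      m ++ [{b : Y | ∃ a ∈ σ (l ++ [{a : X | ∃ b ∈ τ m, (a, b) ∈ E}]), (a, b) ∈ E}]), ?_,
      _, _, rfl, rfl, hA, hB, hAd, hBd⟩
    rw [disjoint_left]
    rintro ⟨a, b⟩ ⟨ha, hb⟩ hab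
    exact disjoint_left.1 hB' hb ⟨a, ha, hab⟩
  obtain ⟨f, hf0, hfd, hfw⟩ := exists_strategy C IsSeqClosed R hR ([], [])
  refine ⟨fun l => C (f l), by simp [C, hf0], fun l => ?_, hfd, fun E hE => ?_⟩
  · exact (isSeqCompact_prod (isSeqCompact_of_cc (hσc _))
      (isSeqCompact_of_cc (hτc _))).isCountablyCompact
  · choose A B h1 h2 h3 h4 h5 h6 using hfw E hE
    have e1 : ∀ n, (f ((List.range n).map E)).1 = (List.range n).map A := by
      intro n
      induction n with
      | zero => simp [hf0]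
      | succ n ih => rw [h1, ih, List.range_succ, List.map_append]; rfl
    have e2 : ∀ n, (f ((List.range n).map E)).2 = (List.range n).map B := by
      intro n
      induction n with
      | zero => simp [hf0]
      | succ n ih => rw [h2, ih, List.range_succ, List.map_append]; rfl
    have w1 := hσw A (fun n => ⟨h3 n, by rw [← e1]; exact h5 n⟩)
    have w2 := hτw B (fun n => ⟨h4 n, by rw [← e2]; exact h6 n⟩)
    filter_upwards [prod_mem_nhds w1 w2] with p hp
    have hp1 : ∀ᶠ n in atTop, p.1 ∈ σ ((List.range n).map A) := hp.1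
    have hp2 : ∀ᶠ n in atTop, p.2 ∈ τ ((List.range n).map B) := hp.2
    filter_upwards [hp1, hp2] with n hn1 hn2
    exact ⟨by rw [e1]; exact hn1, by rw [e2]; exact hn2⟩

/-- All neighbourhoods of the point are won by player II. -/
def TameAt {X : Type u} [TopologicalSpace X] (x : X) : Prop := ∀ W ∈ 𝓝 x, PlayerTwoWins x W

theorem seqAt_of_tame [T2Space X] [T2Space Y] [SequentialSpace X] [SequentialSpace Y]
    {x : X} {y : Y} (hX : TameAt x) (hY : TameAt y) : SeqAt (x, y) := by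
  intro F hF hxy
  have hs : IsClosed {a : X | (a, y) ∈ F} :=
    IsSeqClosed.isClosed fun a q ha hq => hF ha (hq.prodMk_nhds tendsto_const_nhds)
  obtain ⟨σ, hσ0, hσc, hσd, hσw⟩ := hX _ (hs.isOpen_compl.mem_nhds hxy)
  have hs2 := isClosed_proj_right (isSeqCompact_of_cc (hσc [])) hF
  obtain ⟨τ, hτ0, hτc, hτd, hτw⟩ := hY _ (hs2.isOpen_compl.mem_nhds (x := y)
    (by
      rintro ⟨a, ha, hay⟩
      exact hσ0 ha hay))
  obtain ⟨ρ, hρ0, -, hρd, hρw⟩ := prod_strategy hσc hσd hσw hτc hτd hτw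
  have hdis : ∀ n, Disjoint (ρ ((List.range n).map (fun _ => F))) F := by
    intro n
    induction n with
    | zero =>
      simp only [List.range_zero, List.map_nil, hρ0]
      rw [disjoint_left]
      rintro ⟨a, b⟩ ⟨ha, hb⟩ hab
      exact hτ0 hb ⟨a, ha, hab⟩
    | succ n ih =>
      rw [List.range_succ, List.map_append]
      exact hρd _ F hF ih
  have hw := hρw (fun _ => F) (fun n => ⟨hF, hdis n⟩)
  filter_upwards [hw] with p hp
  obtain ⟨n, hn⟩ := hp.exists
  exact disjoint_left.1 (hdis n) hn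

theorem TameAt.prod [T2Space X] [T2Space Y] [SequentialSpace X] [SequentialSpace Y]
    {x : X} {y : Y} (hX : TameAt x) (hY : TameAt y) : TameAt (x, y) := by
  intro W hW
  obtain ⟨U, hU, V, hV, hUV⟩ := mem_nhds_prod_iff.1 hW
  obtain ⟨σ, hσ0, hσc, hσd, hσw⟩ := hX U hU
  obtain ⟨τ, hτ0, hτc, hτd, hτw⟩ := hY V hV
  obtain ⟨ρ, hρ0, hρc, hρd, hρw⟩ := prod_strategy hσc hσd hσw hτc hτd hτw
  refine ⟨ρ, ?_, hρc, fun l E hE hd => hρd l E hE.isSeqClosed hd,
    fun E hE => hρw E fun n => ⟨(hE n).1.isSeqClosed, (hE n).2⟩⟩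
  rw [hρ0]
  exact (prod_mono hσ0 hτ0).trans hUV

theorem TameAt.homeo {Y : Type u} [TopologicalSpace Y] (h : X ≃ₜ Y) {x : X} (tX : TameAt x) :
    TameAt (h x) := by
  intro W hW
  obtain ⟨σ, h0, hc, hd, hw⟩ := tX _ (h.continuous.continuousAt.preimage_mem_nhds hW)
  refine ⟨fun l => h '' σ (l.map fun E => h ⁻¹' E), ?_, fun l => (hc _).image h.continuous,
    fun l E hE hdE => ?_, fun E hE => ?_⟩
  · simpa using h0
  · beta_reduce at hdE ⊢
    rw [List.map_append]
    rw [disjoint_left] at hdE ⊢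
    rintro _ ⟨a, ha, rfl⟩ haE
    refine disjoint_left.1 (hd _ (h ⁻¹' E) (hE.preimage h.continuous) ?_) ha haE
    rw [disjoint_left]
    exact fun b hb hbE => hdE ⟨b, hb, rfl⟩ hbE
  · have e : ∀ n, ((List.range n).map E).map (fun E => h ⁻¹' E)
        = (List.range n).map fun i => h ⁻¹' (E i) := fun n => by
      rw [List.map_map]; rfl
    have h2 := hw (fun i => h ⁻¹' (E i)) fun n => ⟨(hE n).1.preimage h.continuous, by
      have h3 := (hE n).2
      beta_reduce at h3
      rw [e] at h3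
      rw [disjoint_left] at h3 ⊢
      exact fun b hb hbE => h3 ⟨b, hb, rfl⟩ hbE⟩
    have h5 : Tendsto h.symm (𝓝 (h x)) (𝓝 x) := by
      have := h.symm.continuous.tendsto (h x)
      rwa [h.symm_apply_apply] at this
    filter_upwards [h5 h2] with b hb
    have hb' : ∀ᶠ n in atTop, h.symm b ∈ σ ((List.range n).map fun i => h ⁻¹' (E i)) := hb
    filter_upwards [hb'] with n hn
    rw [e]
    exact ⟨_, hn, h.apply_symm_apply b⟩

theorem SeqAt.homeo {Y : Type u} [TopologicalSpace Y] (h : X ≃ₜ Y) {x : X} (hx : SeqAt x) :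
    SeqAt (h x) := by
  intro F hF hxF
  have h1 := hx _ (hF.preimage h.continuous.seqContinuous) hxF
  have h5 : Tendsto h.symm (𝓝 (h x)) (𝓝 x) := by
    have := h.symm.continuous.tendsto (h x)
    rwa [h.symm_apply_apply] at this
  filter_upwards [h5 h1] with b hb hbF
  refine hb ?_
  rw [mem_preimage, h.apply_symm_apply]
  exact hbF

end Game

/-! ### Sufficient conditions -/

section Cases

variable {X : Type u} [TopologicalSpace X]

/-- A chain of sets around `x` which are separated from closed sets far away, relative to a closed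
neighbourhood `N` of `x`. -/
structure Chain (K : ℕ → Set X) (x : X) (N : Set X) (B : ℕ → Set X) (m : ℕ → ℕ) : Prop where
  nhd : N ∈ 𝓝 x
  closed : IsClosed N
  mem : x ∈ B 0
  sub : ∀ n, B n ⊆ N ∩ K n
  next : ∀ n, ∃ O, IsOpen O ∧ B n ⊆ O ∧ O ∩ N ∩ K (n + 1) ⊆ B (n + 1)
  sep : ∀ n, ∀ E : Set X, IsClosed E → E ⊆ N → Disjoint (K (m n)) E →
    ∃ O' O : Set X, IsOpen O' ∧ IsOpen O ∧ B n ⊆ O' ∧ E ⊆ O ∧ Disjoint O' (O ∩ N)

theorem Chain.playerTwoWins [T3Space X] [SequentialSpace X] {K : ℕ → Set X}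
    (hK : Exhaustion K) {x : X} {N : Set X} {B : ℕ → Set X} {m : ℕ → ℕ} (h : Chain K x N B m)
    {W : Set X} (hW : W ∈ 𝓝 x) : PlayerTwoWins x W := by
  obtain ⟨W₀, hW₀x, hW₀c, hW₀⟩ := exists_mem_nhds_isClosed_subset hW
  let S := {p : ℕ × Set X // IsClosed p.2 ∧ p.2 ⊆ N}
  let C : S → Set X := fun s => s.1.2 ∩ K (m s.1.1 + s.1.1)
  let R : S → Set X → S → Prop := fun s _ s' => s'.1.1 = s.1.1 + 1 ∧ ∃ O, IsOpen O ∧
    s'.1.2 = s.1.2 \ O ∧ Disjoint (closure (O ∩ N)) (B s.1.1)
  have hR : ∀ s E, IsClosed E → Disjoint (C s) E → ∃ s', Disjoint (C s') E ∧ R s E s' := by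
    rintro ⟨⟨n, A⟩, hA, hAN⟩ E hE hd
    obtain ⟨O', O, hO', hO, hBO, hEO, hOO⟩ := h.sep n (E ∩ A) (hE.inter hA)
      (inter_subset_right.trans hAN) (by
        rw [disjoint_left]
        rintro a haK ⟨haE, haA⟩
        exact disjoint_left.1 hd ⟨haA, hK.mono (Nat.le_add_right _ _) haK⟩ haE)
    refine ⟨⟨(n + 1, A \ O), hA.sdiff hO, sdiff_subset.trans hAN⟩, ?_, rfl, O, hO, rfl, ?_⟩
    · rw [disjoint_left]
      rintro a ⟨⟨haA, haO⟩, -⟩ haE
      exact haO (hEO ⟨haE, haA⟩)
    · exact ((hOO.closure_right hO').mono_left hBO).symm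
  obtain ⟨f, hf0, hfd, hfw⟩ := exists_strategy C IsClosed R hR
    ⟨(0, N ∩ W₀), h.closed.inter hW₀c, inter_subset_left⟩
  refine ⟨fun l => C (f l), ?_, fun l => ?_, hfd, fun E hE => ?_⟩
  · beta_reduce
    rw [hf0]
    exact (inter_subset_left.trans inter_subset_right).trans hW₀
  · exact ((hK.seqc _).isCountablyCompact).of_isClosed_subset
      ((f l).2.1.inter (hK.closed _)) inter_subset_right
  · have hr := hfw E hE
    have hidx : ∀ n, (f ((List.range n).map E)).1.1 = n := by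
      intro n
      induction n with
      | zero => simp [hf0]
      | succ n ih => rw [(hr n).1, ih]
    choose h1 O hO h2 h3 using hr
    have hBmono : Monotone B := by
      refine monotone_nat_of_le_succ fun n => ?_
      obtain ⟨G, -, hBG, hG⟩ := h.next n
      exact fun a ha => hG ⟨⟨hBG ha, (h.sub n ha).1⟩, hK.mono (Nat.le_succ n) (h.sub n ha).2⟩
    let V : Set X := ((⋃ n, B n) ∩ interior N) \ ⋃ n, closure (O n ∩ N)
    have hVo : IsOpen V := by
      refine hK.isOpen_of fun k a ha hak => ?_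
      obtain ⟨⟨haB, haN⟩, haT⟩ := ha
      obtain ⟨n₀, hn₀⟩ := mem_iUnion.1 haB
      let n := max n₀ k
      have han : a ∈ B n := hBmono (le_max_left _ _) hn₀
      obtain ⟨G, hG, hBG, hGB⟩ := h.next n
      refine ⟨(G ∩ interior N) \ ⋃ i ∈ Iic n, closure (O i ∩ N),
        (hG.inter isOpen_interior).sdiff
          ((finite_Iic n).isClosed_biUnion fun i _ => isClosed_closure), ?_, ?_⟩
      · refine ⟨⟨hBG han, haN⟩, fun hT => haT ?_⟩
        obtain ⟨i, _, hi⟩ := mem_iUnion₂.1 hT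
        exact mem_iUnion.2 ⟨i, hi⟩
      · rintro b ⟨⟨⟨hbG, hbN⟩, hbT⟩, hbk⟩
        have hbB : b ∈ B (n + 1) := hGB ⟨⟨hbG, interior_subset hbN⟩,
          hK.mono ((le_max_right _ _).trans (Nat.le_succ _)) hbk⟩
        refine ⟨⟨mem_iUnion.2 ⟨_, hbB⟩, hbN⟩, fun hT => ?_⟩
        obtain ⟨i, hi⟩ := mem_iUnion.1 hT
        by_cases hin : i ≤ n
        · exact hbT (mem_iUnion₂.2 ⟨i, hin, hi⟩)
        · have h3i := h3 i
          rw [hidx i] at h3i
          exact disjoint_left.1 h3i hi (hBmono (by omega) hbB)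
    have hVx : x ∈ V := by
      refine ⟨⟨mem_iUnion.2 ⟨0, h.mem⟩, mem_interior_iff_mem_nhds.2 h.nhd⟩, fun hT => ?_⟩
      obtain ⟨i, hi⟩ := mem_iUnion.1 hT
      have h3i := h3 i
      rw [hidx i] at h3i
      exact disjoint_left.1 h3i hi (hBmono (Nat.zero_le _) h.mem)
    filter_upwards [hVo.mem_nhds hVx, hW₀x] with a haV haW
    have haN : a ∈ N := interior_subset haV.1.2
    have hA : ∀ n, a ∈ (f ((List.range n).map E)).1.2 := by
      intro n
      induction n with
      | zero => simp only [List.range_zero, List.map_nil, hf0]; exact ⟨haN, haW⟩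
      | succ n ih =>
        rw [h2 n]
        exact ⟨ih, fun haO => haV.2 (mem_iUnion.2 ⟨n, subset_closure ⟨haO, haN⟩⟩)⟩
    obtain ⟨k, hk⟩ := hK.cover a
    filter_upwards [eventually_ge_atTop k] with n hn
    refine ⟨hA n, ?_⟩
    rw [hidx n]
    exact hK.mono (by omega) hk

/-- Points with a countably compact neighbourhood. -/
theorem wins_of_cc [T3Space X] [SequentialSpace X] {K : ℕ → Set X} (hK : Exhaustion K) {x : X}
    (h : ∃ N ∈ 𝓝 x, IsCountablyCompact N) {W : Set X} (hW : W ∈ 𝓝 x) : PlayerTwoWins x W := by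
  obtain ⟨N, hN, hNc⟩ := h
  obtain ⟨M, hM⟩ := hK.subset_of_seqCompact (isSeqCompact_of_cc hNc)
  refine Chain.playerTwoWins (hK.shift M) (N := N) (B := fun _ => N) (m := fun _ => 0)
    ⟨hN, isClosed_of_cc hNc, mem_of_mem_nhds hN, fun n => ?_, fun n => ?_, fun n E hE hEN hd => ?_⟩
    hW
  · exact subset_inter le_rfl (hM.trans (hK.mono (by omega)))
  · exact ⟨univ, isOpen_univ, subset_univ _, fun a ha => ha.1.2⟩
  · refine ⟨univ, ∅, isOpen_univ, isOpen_empty, subset_univ _, fun a ha => ?_, by simp⟩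
    exact disjoint_left.1 hd (by simpa using hM (hEN ha)) ha

/-- Countably compact subsets of `N` and closed subsets of `N` disjoint from them are separated
relative to `N`. -/
def RelSep (N : Set X) : Prop :=
  ∀ C E : Set X, C ⊆ N → E ⊆ N → IsCountablyCompact C → IsClosed E → Disjoint C E →
    ∃ O' O : Set X, IsOpen O' ∧ IsOpen O ∧ C ⊆ O' ∧ E ⊆ O ∧ Disjoint O' (O ∩ N)

theorem relSep_of [T3Space X] [SequentialSpace X] {N : Set X}
    (h : NormalSpace N ∨ SeparatesCountablyCompact N) : RelSep N := by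
  intro C E hCN hEN hC hE hd
  have h1 : IsCountablyCompact ((fun a : N => (a : X)) ⁻¹' C) := by
    rw [Subtype.isCountablyCompact_iff]
    have h3 : (Subtype.val : N → X) '' ((fun a : N => (a : X)) ⁻¹' C) = N ∩ C :=
      Subtype.image_preimage_val N C
    rw [h3, inter_eq_right.2 hCN]
    exact hC
  have h1' : IsClosed ((fun a : N => (a : X)) ⁻¹' C) :=
    (isClosed_of_cc hC).preimage continuous_subtype_val
  have h2 : IsClosed ((fun a : N => (a : X)) ⁻¹' E) := hE.preimage continuous_subtype_val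
  have h4 : SeparatedNhds ((fun a : N => (a : X)) ⁻¹' C) ((fun a : N => (a : X)) ⁻¹' E) := by
    rcases h with h | h
    · exact normal_separation h1' h2 (hd.preimage _)
    · exact h _ _ h1 h2 (hd.preimage _)
  obtain ⟨U, V, hU, hV, hKU, hEV, hUV⟩ := h4
  obtain ⟨U', hU', rfl⟩ := isOpen_induced_iff.1 hU
  obtain ⟨V', hV', rfl⟩ := isOpen_induced_iff.1 hV
  refine ⟨U', V', hU', hV', ?_, ?_, ?_⟩
  · intro a ha
    exact hKU (show (⟨a, hCN ha⟩ : N) ∈ _ from ha)
  · intro a ha
    exact hEV (show (⟨a, hEN ha⟩ : N) ∈ _ from ha)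
  · rw [disjoint_left]
    rintro a haU ⟨haV, haN⟩
    exact disjoint_left.1 hUV (show (⟨a, haN⟩ : N) ∈ _ from haU) haV

/-- Points with a closed neighbourhood in which countably compact sets are separated from closed
sets. -/
theorem wins_of_relSep [T3Space X] [SequentialSpace X] {K : ℕ → Set X} (hK : Exhaustion K)
    {x : X} {N : Set X} (hN : N ∈ 𝓝 x) (hNc : IsClosed N) (hs : RelSep N) {W : Set X}
    (hW : W ∈ 𝓝 x) : PlayerTwoWins x W := by
  obtain ⟨M, hM⟩ := hK.cover x
  refine Chain.playerTwoWins (hK.shift M) (N := N) (B := fun n => N ∩ K (n + M))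
    (m := fun n => n)
    ⟨hN, hNc, ⟨mem_of_mem_nhds hN, by simpa using hM⟩, fun n => le_rfl, fun n => ?_,
      fun n E hE hEN hd => ?_⟩ hW
  · exact ⟨univ, isOpen_univ, subset_univ _, fun a ha => ⟨ha.1.2, ha.2⟩⟩
  · exact hs _ E inter_subset_left hEN (((hK.seqc _).isCountablyCompact).of_isClosed_subset
      (hNc.inter (hK.closed _)) inter_subset_right) hE (hd.mono_left inter_subset_right)

/-- Spaces with separated pieces. -/
theorem wins_of_separatedPieces [T3Space X] [SequentialSpace X]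
    (h : HasSeparatedPieces X) (x : X) {W : Set X} (hW : W ∈ 𝓝 x) : PlayerTwoWins x W := by
  obtain ⟨K, hm, hc, hcov, hdet, hsep⟩ := h
  have hK : Exhaustion K := exhaustion_of hm hc hcov fun U hU => (hdet U).2 hU
  obtain ⟨M, hM⟩ := hK.cover x
  refine Chain.playerTwoWins (hK.shift M) (N := univ) (B := fun n => K (n + M))
    (m := fun n => n + 1)
    ⟨univ_mem, isClosed_univ, by simpa using hM, fun n => subset_inter (subset_univ _) le_rfl,
      fun n => ?_, fun n E hE hEN hd => ?_⟩ hW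
  · exact ⟨univ, isOpen_univ, subset_univ _, fun a ha => ha.2⟩
  · obtain ⟨O', O, hO', hO, h1, h2, h3⟩ := hsep (n + M) E hE (by
      have : n + 1 + M = n + M + 1 := by omega
      rwa [this] at hd)
    exact ⟨O', O, hO', hO, h1, h2, h3.mono_right inter_subset_left⟩

open scoped Pointwise in
/-- Topological groups. -/
theorem wins_of_group [T3Space X] [SequentialSpace X] [Group X] [IsTopologicalGroup X]
    {K : ℕ → Set X} (hK : Exhaustion K) (x : X) {W : Set X} (hW : W ∈ 𝓝 x) :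
    PlayerTwoWins x W := by
  obtain ⟨M, hM⟩ := hK.cover x
  refine Chain.playerTwoWins (hK.shift M) (N := univ) (B := fun n => K (n + M))
    (m := fun n => n)
    ⟨univ_mem, isClosed_univ, by simpa using hM, fun n => subset_inter (subset_univ _) le_rfl,
      fun n => ?_, fun n E hE hEN hd => ?_⟩ hW
  · exact ⟨univ, isOpen_univ, subset_univ _, fun a ha => ha.2⟩
  · have hcl : IsClosed {g : X | ∃ k ∈ K (n + M), g * k ∈ E} := by
      refine IsSeqClosed.isClosed fun g q hg hq => ?_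
      choose k hkK hkE using hg
      obtain ⟨a, ha, φ, hφ, ht⟩ := hK.seqc (n + M) hkK
      refine ⟨a, ha, hE.mem_of_tendsto ((hq.comp hφ.tendsto_atTop).mul ht)
        (Eventually.of_forall fun j => hkE (φ j))⟩
    have h1 : (1 : X) ∉ {g : X | ∃ k ∈ K (n + M), g * k ∈ E} := by
      rintro ⟨k, hk, hkE⟩
      rw [one_mul] at hkE
      exact disjoint_left.1 hd hk hkE
    have hnh : {g : X | ∃ k ∈ K (n + M), g * k ∈ E}ᶜ ∈ 𝓝 (1 : X) := hcl.isOpen_compl.mem_nhds h1
    have hcont : Tendsto (fun p : X × X => p.1⁻¹ * p.2) (𝓝 (1, 1)) (𝓝 1) := by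
      have : Continuous (fun p : X × X => p.1⁻¹ * p.2) := by fun_prop
      simpa using this.tendsto (1, 1)
    obtain ⟨U, V, hUo, hU1, hVo, hV1, hUV⟩ := mem_nhds_prod_iff'.1 (hcont hnh)
    refine ⟨V * K (n + M), U * E, hVo.mul_right, hUo.mul_right, ?_, ?_, ?_⟩
    · exact fun a ha => ⟨1, hV1, a, ha, one_mul a⟩
    · exact fun a ha => ⟨1, hU1, a, ha, one_mul a⟩
    · rw [disjoint_left]
      rintro a ⟨v, hv, k, hk, rfl⟩ ⟨⟨u, hu, e, he, hue⟩, -⟩
      have h2 := hUV (show (u, v) ∈ U ×ˢ V from ⟨hu, hv⟩)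
      refine h2 ⟨k, hk, ?_⟩
      have h3 : u * e = v * k := hue
      have h4 : u⁻¹ * v * k = e := by rw [mul_assoc, ← h3, inv_mul_cancel_left]
      simpa [h4] using he

/-- Spaces with locally compact pieces. -/
theorem wins_of_locallyCompactPieces [T3Space X] [SequentialSpace X]
    (h : HasLocallyCompactPieces X) (x : X) {W : Set X} (hW : W ∈ 𝓝 x) : PlayerTwoWins x W := by
  obtain ⟨K, hm, hc, hcov, hdet⟩ := h
  have hK : Exhaustion K := exhaustion_of hm (fun n => (hc n).1) hcov fun U hU => (hdet U).2 hU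
  obtain ⟨M, hM⟩ := hK.cover x
  have hstep : ∀ n, ∀ B : {B : Set X // IsCompact B ∧ B ⊆ K (n + M)},
      ∃ B' : {B' : Set X // IsCompact B' ∧ B' ⊆ K (n + 1 + M)},
      ∃ O, IsOpen O ∧ B.1 ⊆ O ∧ O ∩ K (n + 1 + M) ⊆ B'.1 := by
    rintro n ⟨B, hB, hBK⟩
    have hBK' : B ⊆ K (n + 1 + M) := hBK.trans (hK.mono (by omega))
    have := (hc (n + 1 + M)).2
    have hB1 : IsCompact ((fun a : K (n + 1 + M) => (a : X)) ⁻¹' B) := by
      rw [Subtype.isCompact_iff]
      have h3 : (Subtype.val : K (n + 1 + M) → X) '' ((fun a : K (n + 1 + M) => (a : X)) ⁻¹' B)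
          = B := by
        rw [Subtype.image_preimage_val]
        exact inter_eq_right.2 hBK'
      rw [h3]
      exact hB
    obtain ⟨L, hL, hBL⟩ := exists_compact_superset hB1
    obtain ⟨O, hO, hOL⟩ := isOpen_induced_iff.1 (isOpen_interior (s := L))
    refine ⟨⟨Subtype.val '' L, hL.image continuous_subtype_val, ?_⟩, O, hO, ?_, ?_⟩
    · rintro _ ⟨a, _, rfl⟩
      exact a.2
    · intro a ha
      have : (⟨a, hBK' ha⟩ : K (n + 1 + M)) ∈ interior L := hBL ha
      rw [← hOL] at this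
      exact this
    · rintro a ⟨haO, haK⟩
      have : (⟨a, haK⟩ : K (n + 1 + M)) ∈ interior L := by
        rw [← hOL]
        exact haO
      exact ⟨⟨a, haK⟩, interior_subset this, rfl⟩
  choose nxt O hO hBO hOB using hstep
  let s : ∀ n, {B : Set X // IsCompact B ∧ B ⊆ K (n + M)} := fun n =>
    Nat.rec (motive := fun n => {B : Set X // IsCompact B ∧ B ⊆ K (n + M)})
      ⟨{x}, isCompact_singleton, by simpa using hM⟩ (fun n B => nxt n B) n
  have ss : ∀ n, s (n + 1) = nxt n (s n) := fun n => rfl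
  refine Chain.playerTwoWins (hK.shift M) (N := univ) (B := fun n => (s n).1)
    (m := fun n => n)
    ⟨univ_mem, isClosed_univ, mem_singleton x, fun n => subset_inter (subset_univ _) (s n).2.2,
      fun n => ?_, fun n E hE hEN hd => ?_⟩ hW
  · refine ⟨O n (s n), hO n (s n), hBO n (s n), ?_⟩
    rintro a ⟨⟨haO, -⟩, haK⟩
    rw [ss]
    exact hOB n (s n) ⟨haO, haK⟩
  · obtain ⟨O', O, hO', hO, h1, h2, h3⟩ :=
      SeparatedNhds.of_isCompact_isClosed (s n).2.1 hE (hd.mono_left (s n).2.2)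
    exact ⟨O', O, hO', hO, h1, h2, h3.mono_right inter_subset_left⟩

/-- Points of finite sequential order in a closed neighbourhood in which countably compact sets are
separated from closed sets: the product with every regular sequential `c_ω`-space is sequential at
such points. -/
theorem seqAt_of_order {Y : Type v} [TopologicalSpace Y] [T3Space X] [T3Space Y]
    [SequentialSpace X] [SequentialSpace Y] {K : ℕ → Set X} {L : ℕ → Set Y} (hK₀ : Exhaustion K)
    (hL₀ : Exhaustion L) {x : X} {N : Set X} (hN : N ∈ 𝓝 x) (hNc : IsClosed N) (hs : RelSep N)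
    {k : ℕ} (ho : SequentialOrderLE x k) (y : Y) : SeqAt (x, y) := by
  intro F hF hxy
  obtain ⟨M, hM⟩ := hK₀.cover x
  obtain ⟨M', hM'⟩ := hL₀.cover y
  have hK := hK₀.shift M
  have hL := hL₀.shift M'
  have hx0 : ∀ n, x ∈ K (n + M) := fun n => hK₀.mono (Nat.le_add_left _ _) hM
  have hy0 : ∀ n, y ∈ L (n + M') := fun n => hL₀.mono (Nat.le_add_left _ _) hM'
  generalize hK'e : (fun n => K (n + M)) = K' at hK
  generalize hL'e : (fun n => L (n + M')) = L' at hL
  have hx : ∀ n, x ∈ K' n := fun n => by rw [← hK'e]; exact hx0 n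
  have hy : ∀ n, y ∈ L' n := fun n => by rw [← hL'e]; exact hy0 n
  have key : ∀ i : ℕ, ∃ (G : ℕ → Set X) (B : Set Y), (∀ n, IsClosed (G n)) ∧
      (∀ n, G n ⊆ N ∩ K' n) ∧ Monotone G ∧ B ∈ 𝓝 y ∧ IsClosed B ∧
      (∀ n, ∀ a ∈ G n, ∀ b ∈ B, (a, b) ∉ F) ∧
      ∀ A : Set X, Disjoint A ((⋃ n, G n) ∪ Nᶜ) → x ∉ seqClosure^[i] A := by
    intro i
    induction i with
    | zero =>
      have hc : IsClosed {b : Y | (x, b) ∈ F} :=
        IsSeqClosed.isClosed fun b q hb hq => hF hb (tendsto_const_nhds.prodMk_nhds hq)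
      obtain ⟨B, hB, hBc, hBF⟩ := exists_mem_nhds_isClosed_subset (hc.isOpen_compl.mem_nhds hxy)
      refine ⟨fun _ => {x}, B, fun _ => isClosed_singleton, fun n => ?_, monotone_const, hB, hBc,
        ?_, fun A hA hxA => ?_⟩
      · rw [singleton_subset_iff]
        exact ⟨mem_of_mem_nhds hN, hx n⟩
      · rintro n a rfl b hb hab
        exact hBF hb hab
      · exact disjoint_left.1 hA hxA (Or.inl (mem_iUnion.2 ⟨0, rfl⟩))
    | succ i ih =>
      obtain ⟨G, B, hGc, hGK, hGm, hB, hBc, hGB, hGx⟩ := ih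
      have hBL : ∀ n, IsSeqCompact (B ∩ L' n) := fun n =>
        isSeqCompact_of_cc ((hL.seqc n).isCountablyCompact.of_isClosed_subset
          (hBc.inter (hL.closed n)) inter_subset_right)
      have hsep : ∀ n, ∃ O' O : Set X, IsOpen O' ∧ IsOpen O ∧ G n ⊆ O' ∧
          {a : X | ∃ b ∈ B ∩ L' n, (a, b) ∈ F} ∩ N ⊆ O ∧ Disjoint O' (O ∩ N) := by
        intro n
        refine hs _ _ ((hGK n).trans inter_subset_left) inter_subset_right
          ((hK.seqc n).isCountablyCompact.of_isClosed_subset (hGc n)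
            ((hGK n).trans inter_subset_right))
          ((isClosed_proj_left (hBL n) hF).inter hNc) ?_
        rw [disjoint_left]
        rintro a haG ⟨⟨b, hb, hab⟩, -⟩
        exact hGB n a haG b hb.1 hab
      choose O' O hO' hO hGO hEO hOO using hsep
      have hKA : ∀ n, IsSeqCompact ((N \ O n) ∩ K' n) := fun n =>
        isSeqCompact_of_cc ((hK.seqc n).isCountablyCompact.of_isClosed_subset
          ((hNc.sdiff (hO n)).inter (hK.closed n)) inter_subset_right)
      have hH : IsClosed (⋃ n, {b : Y | ∃ a ∈ (N \ O n) ∩ K' n, (a, b) ∈ F} ∩ B) := by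
        refine isClosed_iUnion_of_disjoint hL (fun n => (isClosed_proj_right (hKA n) hF).inter hBc)
          fun n => ?_
        rw [disjoint_left]
        rintro b ⟨⟨a, ha, hab⟩, hbB⟩ hbL
        exact ha.1.2 (hEO n ⟨⟨b, ⟨hbB, hbL⟩, hab⟩, ha.1.1⟩)
      have hyH : y ∉ ⋃ n, {b : Y | ∃ a ∈ (N \ O n) ∩ K' n, (a, b) ∈ F} ∩ B := by
        intro hyH
        obtain ⟨n, ⟨a, ha, hay⟩, hyB⟩ := mem_iUnion.1 hyH
        exact ha.1.2 (hEO n ⟨⟨y, ⟨hyB, hy n⟩, hay⟩, ha.1.1⟩)
      obtain ⟨B', hB', hB'c, hB'H⟩ := exists_mem_nhds_isClosed_subset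
        (inter_mem hB (hH.isOpen_compl.mem_nhds hyH))
      refine ⟨fun n => ⋃ m ∈ Iic n, (N \ O m) ∩ K' m, B', fun n => ?_, fun n => ?_, ?_, hB', hB'c,
        ?_, fun A hA => ?_⟩
      · exact (finite_Iic n).isClosed_biUnion fun m _ => (hNc.sdiff (hO m)).inter (hK.closed m)
      · intro a ha
        obtain ⟨m, hm, ha'⟩ := mem_iUnion₂.1 ha
        exact ⟨ha'.1.1, hK.mono hm ha'.2⟩
      · intro a b hab
        exact biUnion_subset_biUnion_left (Iic_subset_Iic.2 hab)
      · intro n a ha b hb hab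
        obtain ⟨m, hm, ha'⟩ := mem_iUnion₂.1 ha
        exact (hB'H hb).2 (mem_iUnion.2 ⟨m, ⟨a, ha', hab⟩, (hB'H hb).1⟩)
      · rw [Function.iterate_succ_apply]
        refine hGx _ ?_
        rw [disjoint_left]
        rintro p ⟨u, huA, hu⟩ hp
        have hnot : ∀ j, u j ∉ (⋃ n, ⋃ m ∈ Iic n, (N \ O m) ∩ K' m) ∪ Nᶜ := fun j =>
          disjoint_left.1 hA (huA j)
        have huN : ∀ j, u j ∈ N := fun j => by
          by_contra h
          exact hnot j (Or.inr h)
        rcases hp with hp | hp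
        · obtain ⟨n₁, hn₁⟩ := mem_iUnion.1 hp
          obtain ⟨n₂, -, hn₂⟩ := hK.subset_of_tendsto hu
          have hpG : p ∈ G (max n₁ n₂) := hGm (le_max_left _ _) hn₁
          obtain ⟨j, hj⟩ := (hu.eventually ((hO' (max n₁ n₂)).mem_nhds (hGO _ hpG))).exists
          refine hnot j (Or.inl (mem_iUnion.2 ⟨max n₁ n₂, mem_iUnion₂.2
            ⟨max n₁ n₂, mem_Iic.2 le_rfl, ⟨huN j, fun hOj => ?_⟩,
              hK.mono (le_max_right _ _) (hn₂ j)⟩⟩))
          exact disjoint_left.1 (hOO _) hj ⟨hOj, huN j⟩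
        · exact hp (hNc.mem_of_tendsto hu (Eventually.of_forall huN))
  obtain ⟨G, B, -, -, -, hB, -, hGB, hGx⟩ := key k
  have hW : (⋃ n, G n) ∪ Nᶜ ∈ 𝓝 x := by
    by_contra h
    refine hGx _ disjoint_compl_left (ho _ ?_)
    rw [closure_compl, mem_compl_iff, mem_interior_iff_mem_nhds]
    exact h
  filter_upwards [prod_mem_nhds (inter_mem hW hN) hB] with p hp hpF
  rcases hp.1.1 with h | h
  · obtain ⟨n, hn⟩ := mem_iUnion.1 h
    exact hGB n p.1 hn p.2 hp.2 hpF
  · exact h hp.1.2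

end Cases

/-! ### Finite products -/

section Pi

/-- Regular sequential spaces with an exhaustion, i.e. regular sequential `c_ω`-spaces. -/
structure SCO (X : Type u) [TopologicalSpace X] : Prop where
  t3 : T3Space X
  seq : SequentialSpace X
  exh : ∃ K : ℕ → Set X, Exhaustion K

/-- Points `x` such that the product with every regular sequential `c_ω`-space is sequential at all
points `(x, y)`. -/
def ProductiveAt {X : Type u} [TopologicalSpace X] (x : X) : Prop :=
  ∀ (Y : Type u) [TopologicalSpace Y], SCO Y → ∀ y : Y, SeqAt (x, y)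

variable {X : Type u} [TopologicalSpace X] {Y : Type u} [TopologicalSpace Y]

theorem SCO.prod (hX : SCO X) (hY : SCO Y) (h : ∀ p : X × Y, SeqAt p) : SCO (X × Y) := by
  obtain ⟨_, _, ⟨K, hK⟩⟩ := hX
  obtain ⟨_, _, ⟨L, hL⟩⟩ := hY
  have hs := sequentialSpace_of_seqAt h
  exact ⟨inferInstance, hs, ⟨_, exhaustion_prod hK hL⟩⟩

theorem SCO.homeo (h : X ≃ₜ Y) (hX : SCO X) : SCO Y := by
  obtain ⟨_, _, ⟨K, hK⟩⟩ := hX
  refine ⟨h.symm.isEmbedding.t3Space, h.isQuotientMap.sequentialSpace, ⟨fun n => h '' K n, ?_⟩⟩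
  refine ⟨fun a b hab => image_mono (hK.mono hab), fun n => h.isClosedMap _ (hK.closed n),
    fun n => (h.isInducing.isSeqCompact_iff).1 (hK.seqc n), fun y => ?_, fun C hC => ?_⟩
  · obtain ⟨n, hn⟩ := hK.cover (h.symm y)
    exact ⟨n, h.symm y, hn, h.apply_symm_apply y⟩
  · rw [← h.isClosed_preimage]
    refine hK.det _ fun n => ?_
    have h1 := (hC n).preimage h.continuous
    rwa [preimage_inter, preimage_image_eq _ h.injective] at h1

theorem sco_of_subsingleton [Subsingleton X] : SCO X := by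
  have hT : T3Space X := inferInstance
  have hS : SequentialSpace X := inferInstance
  have hc : CompactSpace X := inferInstance
  exact ⟨hT, hS, ⟨fun _ => univ, ⟨monotone_const, fun _ => isClosed_univ,
      fun _ => isSeqCompact_of_cc (isCompact_univ.isCountablyCompact), fun x => ⟨0, mem_univ x⟩,
      fun C hC => by
        have h := hC 0
        rwa [inter_univ] at h⟩⟩⟩

/-- The product of `n + 1` spaces, with the factor `j` singled out. -/
def nthHomeo {n : ℕ} (X : Fin (n + 1) → Type u) [∀ i, TopologicalSpace (X i)] (j : Fin (n + 1)) :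
    (X j × ∀ i : Fin n, X (j.succAbove i)) ≃ₜ ∀ i, X i where
  toEquiv := Fin.insertNthEquiv X j
  continuous_toFun := Continuous.finInsertNth j continuous_fst continuous_snd
  continuous_invFun := by
    refine Continuous.prodMk (continuous_apply j) ?_
    exact continuous_pi fun i => continuous_apply (j.succAbove i)

theorem nthHomeo_apply {n : ℕ} (X : Fin (n + 1) → Type u) [∀ i, TopologicalSpace (X i)]
    (j : Fin (n + 1)) (z : ∀ i, X i) :
    nthHomeo X j (z j, fun i => z (j.succAbove i)) = z := by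
  have := (Fin.insertNthEquiv X j).apply_symm_apply z
  exact this

/-- Products of finitely many spaces each of whose points is productive or tame. -/
theorem sco_pi_of_pointwise {n : ℕ} (X : Fin n → Type u) [∀ i, TopologicalSpace (X i)]
    (hX : ∀ i, SCO (X i)) (hp : ∀ i, ∀ x : X i, ProductiveAt x ∨ TameAt x) :
    SCO (∀ i, X i) ∧ ∀ z : (∀ i, X i), (∀ i, TameAt (z i)) → TameAt z := by
  induction n with
  | zero =>
    obtain ⟨h1, h2, ⟨K, hK⟩⟩ := sco_of_subsingleton (X := ∀ i, X i)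
    have hc : CompactSpace (∀ i, X i) := inferInstance
    exact ⟨⟨h1, h2, ⟨K, hK⟩⟩, fun z _ W hW =>
      wins_of_cc hK ⟨univ, univ_mem, isCompact_univ.isCountablyCompact⟩ hW⟩
  | succ n ih =>
    have ihj := fun j : Fin (n + 1) => ih (fun i => X (j.succAbove i))
      (fun i => hX (j.succAbove i)) (fun i => hp (j.succAbove i))
    have htame : ∀ z : (∀ i, X i), (∀ i, TameAt (z i)) → TameAt z ∧ SeqAt z := by
      intro z hz
      have hS := (ihj 0).1
      obtain ⟨_, _, _⟩ := hX 0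
      obtain ⟨_, _, _⟩ := hS
      have hr := (ihj 0).2 (fun i => z ((0 : Fin (n + 1)).succAbove i)) fun i => hz _
      rw [← nthHomeo_apply X 0 z]
      exact ⟨((hz 0).prod hr).homeo _, (seqAt_of_tame (hz 0) hr).homeo _⟩
    refine ⟨?_, fun z hz => (htame z hz).1⟩
    refine SCO.homeo (nthHomeo X 0) (SCO.prod (hX 0) (ihj 0).1 fun p => ?_)
    have hz : SeqAt (nthHomeo X 0 p) := by
      generalize nthHomeo X 0 p = z
      by_cases h : ∀ i, TameAt (z i)
      · exact (htame z h).2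
      · push Not at h
        obtain ⟨j, hj⟩ := h
        have hj' := (hp j (z j)).resolve_right hj
        rw [← nthHomeo_apply X j z]
        exact (hj' _ (ihj j).1 _).homeo _
    have h2 := hz.homeo (nthHomeo X 0).symm
    rwa [Homeomorph.symm_apply_apply] at h2

/-- The product of an arbitrary space with finitely many productive spaces. -/
theorem sco_productive_prod {n : ℕ} (X : Fin n → Type u) [∀ i, TopologicalSpace (X i)]
    (hX : ∀ i, SCO (X i)) (hp : ∀ i, ∀ x : X i, ProductiveAt x)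
    (Z : Type u) [TopologicalSpace Z] (hZ : SCO Z) : SCO ((∀ i, X i) × Z) := by
  induction n with
  | zero => exact SCO.homeo (Homeomorph.uniqueProd (∀ i : Fin 0, X i) Z).symm hZ
  | succ n ih =>
    refine SCO.homeo ((nthHomeo X 0).prodCongr (Homeomorph.refl Z)) ?_
    have h1 := ih (fun i => X ((0 : Fin (n + 1)).succAbove i)) (fun i => hX _) fun i => hp _
    exact SCO.homeo (Homeomorph.prodAssoc _ _ _).symm
      (SCO.prod (hX 0) h1 fun p => hp 0 p.1 _ h1 p.2)

theorem sco_pi_of_subsingleton {n : ℕ} (X : Fin n → Type u) [∀ i, TopologicalSpace (X i)]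
    (hX : ∀ i, SCO (X i)) (j : Fin n) (hp : ∀ i, i ≠ j → ∀ x : X i, ProductiveAt x) :
    SCO (∀ i, X i) := by
  cases n with
  | zero => exact j.elim0
  | succ n =>
    refine SCO.homeo ((Homeomorph.prodComm _ _).trans (nthHomeo X j))
      (sco_productive_prod (fun i => X (j.succAbove i)) (fun i => hX _)
        (fun i => hp _ (Fin.succAbove_ne j i)) (X j) (hX j))

end Pi

/-- **Finite products of sequential `c_ω`-spaces.** -/
theorem finite_product {n : ℕ} (X : Fin n → Type u) [∀ i, TopologicalSpace (X i)] [∀ i, T3Space (X i)]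
    [∀ i, SequentialSpace (X i)] (hc : ∀ i, IsCOmega (X i))
    (h : (∃ j, ∀ i, i ≠ j → FrechetUrysohnSpace (X i) ∨ ∀ x : X i, IsFirstKind x) ∨
      ∀ i, FrechetUrysohnSpace (X i) ∨ IsGroupSpace (X i) ∨ HasLocallyCompactPieces (X i) ∨
        HasSeparatedPieces (X i) ∨ ∀ x : X i, IsFirstKind x ∨ IsSecondKind x) :
    SequentialSpace (∀ i, X i) ∧ IsCOmega (∀ i, X i) := by
  have hX : ∀ i, SCO (X i) := fun i => ⟨inferInstance, inferInstance, exists_exhaustion (hc i)⟩
  have hD : ∀ i, ∀ x : X i, IsDeterminedAt x → ProductiveAt x := by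
    intro i x hx Y _ hY y
    obtain ⟨K, hK⟩ := exists_exhaustion (hc i)
    obtain ⟨_, _, ⟨L, hL⟩⟩ := hY
    exact seqAt_of_determined hK hL hx y
  have hP : ∀ i, ∀ x : X i, IsFirstKind x → ProductiveAt x := by
    intro i x hx
    rcases hx with h | h | ⟨⟨k, hk⟩, N, hN, hNc, hNn⟩
    · exact hD i x (isDeterminedAt_of_cc h)
    · exact hD i x h
    · intro Y _ hY y
      obtain ⟨K, hK⟩ := exists_exhaustion (hc i)
      obtain ⟨_, _, ⟨L, hL⟩⟩ := hY
      exact seqAt_of_order hK hL hN hNc (relSep_of hNn) hk y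
  have hS : SCO (∀ i, X i) := by
    rcases h with ⟨j, h⟩ | h
    · refine sco_pi_of_subsingleton X hX j fun i hi x => ?_
      rcases h i hi with h | h
      · exact hD i x (isDeterminedAt_of_frechet x)
      · exact hP i x (h x)
    · refine (sco_pi_of_pointwise X hX fun i x => ?_).1
      obtain ⟨K, hK⟩ := exists_exhaustion (hc i)
      rcases h i with h | ⟨g, hg⟩ | h | h | h
      · exact Or.inl (hD i x (isDeterminedAt_of_frechet x))
      · exact Or.inr fun W hW => wins_of_group hK x hW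
      · exact Or.inr fun W hW => wins_of_locallyCompactPieces h x hW
      · exact Or.inr fun W hW => wins_of_separatedPieces h x hW
      · rcases h x with h | ⟨N, hN, hNc, h⟩ | h
        · exact Or.inl (hP i x h)
        · exact Or.inr fun W hW => wins_of_relSep hK hN hNc (relSep_of h) hW
        · exact Or.inr h
  obtain ⟨_, hs, ⟨K, hK⟩⟩ := hS
  exact ⟨hs, hK.isCOmega⟩

end Pool.Agent.H64GT
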