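import Mathlib

set_option autoImplicit false

/-! # The sequential coreflection of a topology -/

open Set Topology Filter

namespace Pool.Agent.H64GT

universe u

/-- The topology on `Z` whose open sets are the sequentially open sets of the given topology, i.e.
the complements of the sequentially closed sets. -/
@[reducible] def seqTopology (Z : Type u) [TopologicalSpace Z] : TopologicalSpace Z where
  IsOpen U := IsSeqClosed Uᶜ
  isOpen_univ := by
    intro x p hx _
    exact absurd (mem_univ _) (hx 0)
  isOpen_inter := by
    intro U V hU hV x p hx hp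
    rw [compl_inter]
    by_contra hcon
    rw [mem_union, not_or] at hcon
    have hfr : (∃ᶠ n in atTop, x n ∈ Uᶜ) ∨ ∃ᶠ n in atTop, x n ∈ Vᶜ := by
      rw [← frequently_or_distrib]
      refine Eventually.frequently (Eventually.of_forall fun n => ?_)
      have h := hx n
      rwa [compl_inter] at h
    rcases hfr with h | h
    · obtain ⟨φ, hφ, h'⟩ := extraction_of_frequently_atTop h
      exact hcon.1 (hU h' (hp.comp hφ.tendsto_atTop))
    · obtain ⟨φ, hφ, h'⟩ := extraction_of_frequently_atTop h
      exact hcon.2 (hV h' (hp.comp hφ.tendsto_atTop))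
  isOpen_sUnion := by
    intro S hS x p hx hp
    rintro ⟨U, hU, hpU⟩
    exact hS U hU (fun n hn => hx n ⟨U, hU, hn⟩) hp hpU

end Pool.Agent.H64GT
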