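import Pool.Agent.H64GT.Base
import Pool.Agent.H64GT.SeqTop

set_option autoImplicit false

/-! # Sequentially continuous functions on products of sequential `c_ω`-spaces -/

open Set Topology Filter

namespace Pool.Agent.H64GT

universe u v w

section Pi

variable {ι : Type v} [Finite ι] {X : ι → Type u} [∀ i, TopologicalSpace (X i)]

theorem isSeqCompact_pi {K : ∀ i, Set (X i)} (hK : ∀ i, IsSeqCompact (K i)) :
    IsSeqCompact (Set.pi univ K) := by
  classical
  cases nonempty_fintype ι
  intro x hx
  have key : ∀ s : Finset ι, ∃ φ : ℕ → ℕ, StrictMono φ ∧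
      ∀ i ∈ s, ∃ a ∈ K i, Tendsto (fun n => x (φ n) i) atTop (𝓝 a) := by
    intro s
    induction s using Finset.induction_on with
    | empty => exact ⟨id, strictMono_id, by simp⟩
    | insert j s _ ih =>
      obtain ⟨φ, hφ, h⟩ := ih
      obtain ⟨a, ha, ψ, hψ, hψa⟩ := hK j (x := fun n => x (φ n) j)
        (fun n => hx (φ n) j (mem_univ j))
      refine ⟨φ ∘ ψ, hφ.comp hψ, fun i hi => ?_⟩
      rcases Finset.mem_insert.1 hi with rfl | hi
      · exact ⟨a, ha, hψa⟩
      · obtain ⟨b, hb, hb'⟩ := h i hi
        exact ⟨b, hb, hb'.comp hψ.tendsto_atTop⟩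
  obtain ⟨φ, hφ, h⟩ := key Finset.univ
  choose a ha hta using fun i => h i (Finset.mem_univ i)
  exact ⟨a, fun i _ => ha i, φ, hφ, tendsto_pi_nhds.2 hta⟩

section

variable [∀ i, T2Space (X i)] [∀ i, SequentialSpace (X i)]

/-- A convergent sequence in the product lies in a product of pieces. -/
theorem subset_pi_of_tendsto {K : ∀ i, ℕ → Set (X i)} (hK : ∀ i, Exhaustion (K i))
    {x : ℕ → ∀ i, X i} {p : ∀ i, X i} (h : Tendsto x atTop (𝓝 p)) :
    ∃ n, ∀ k, x k ∈ Set.pi univ (fun i => K i n) := by
  cases nonempty_fintype ι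
  have h1 : ∀ i, ∃ n, ∀ k, x k i ∈ K i n := by
    intro i
    obtain ⟨n, -, hn⟩ := (hK i).subset_of_tendsto (tendsto_pi_nhds.1 h i)
    exact ⟨n, hn⟩
  choose n hn using h1
  refine ⟨Finset.univ.sup n, fun k i _ => (hK i).mono (Finset.le_sup (Finset.mem_univ i)) (hn i k)⟩

theorem exhaustion_pi [SequentialSpace (∀ i, X i)] {K : ∀ i, ℕ → Set (X i)}
    (hK : ∀ i, Exhaustion (K i)) : Exhaustion (fun n => Set.pi univ (fun i => K i n)) where
  mono := fun _ _ h => Set.pi_mono fun i _ => (hK i).mono h
  closed n := isClosed_set_pi fun i _ => (hK i).closed n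
  seqc n := isSeqCompact_pi fun i => (hK i).seqc n
  cover := fun x => by
    obtain ⟨n, hn⟩ := subset_pi_of_tendsto hK (x := fun _ => x) (p := x) tendsto_const_nhds
    exact ⟨n, hn 0⟩
  det C hC := by
    refine IsSeqClosed.isClosed fun z p hz hp => ?_
    obtain ⟨n, hn⟩ := subset_pi_of_tendsto hK hp
    exact ((hC n).isSeqClosed (fun k => ⟨hz k, hn k⟩) hp).1

end

/-- The set of points close to `a`, uniformly over the other coordinates in the pieces. -/
theorem isOpen_close [∀ i, SequentialSpace (X i)] [DecidableEq ι] {K : ∀ i, Set (X i)} (hK : ∀ i, IsSeqCompact (K i))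
    {f : (∀ i, X i) → ℝ} (hf : SeqContinuous f) (i : ι) (a : X i) (δ : ℝ) :
    IsOpen {b : X i | ∀ w ∈ Set.pi univ K,
      |f (Function.update w i b) - f (Function.update w i a)| < δ} := by
  rw [← isClosed_compl_iff]
  refine IsSeqClosed.isClosed fun b q hb hq => ?_
  have hb' : ∀ n, ∃ w ∈ Set.pi univ K,
      δ ≤ |f (Function.update w i (b n)) - f (Function.update w i a)| := by
    intro n
    have h := hb n
    by_contra hcon
    push Not at hcon
    exact h hcon
  choose w hwK hw using hb'
  obtain ⟨v, hv, φ, hφ, ht⟩ := isSeqCompact_pi hK hwK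
  have t1 : Tendsto (fun n => Function.update (w (φ n)) i (b (φ n))) atTop
      (𝓝 (Function.update v i q)) := ht.update i (hq.comp hφ.tendsto_atTop)
  have t2 : Tendsto (fun n => Function.update (w (φ n)) i a) atTop
      (𝓝 (Function.update v i a)) := ht.update i tendsto_const_nhds
  have t3 := ((hf t1).sub (hf t2)).abs
  intro h
  refine absurd (h v hv) (not_lt.2 ?_)
  exact ge_of_tendsto t3 (Eventually.of_forall fun n => hw (φ n))

variable [∀ i, T2Space (X i)] [∀ i, SequentialSpace (X i)]

/-- Sequentially continuous real functions on the product are continuous. -/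
theorem continuous_of_seqContinuous {K : ∀ i, ℕ → Set (X i)} (hK₀ : ∀ i, Exhaustion (K i))
    {f : (∀ i, X i) → ℝ} (hf : SeqContinuous f) : Continuous f := by
  classical
  cases nonempty_fintype ι
  rw [continuous_iff_continuousAt]
  intro z
  obtain ⟨N, hN⟩ := subset_pi_of_tendsto hK₀ (x := fun _ => z) (p := z) tendsto_const_nhds
  have hz0 : ∀ i, z i ∈ K i (0 + N) := fun i => by simpa using hN 0 i (mem_univ i)
  have hK := fun i => (hK₀ i).shift N
  generalize hLe : (fun i n => K i (n + N)) = L at *
  have hL : ∀ i, Exhaustion (L i) := fun i => by rw [← hLe]; exact hK i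
  have hzL : ∀ i, z i ∈ L i 0 := fun i => by rw [← hLe]; exact hz0 i
  rw [Metric.continuousAt_iff']
  intro ε hε
  let c : ℝ := Fintype.card ι + 1
  have hc : 0 < c := by positivity
  let δ : ℕ → ℝ := fun n => ε / c / 2 ^ (n + 2)
  have hδ : ∀ n, 0 < δ n := fun n => by positivity
  let U : ℕ → ∀ i, Set (X i) := fun n => Nat.rec (fun i => {z i}) (fun n U i =>
    {b | b ∈ L i (n + 1) ∧ ∃ a ∈ U i, ∀ w ∈ Set.pi univ (fun i => L i (n + 1)),
      |f (Function.update w i b) - f (Function.update w i a)| < δ n}) n
  have U0 : ∀ i, U 0 i = {z i} := fun i => rfl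
  have US : ∀ n i, U (n + 1) i = {b | b ∈ L i (n + 1) ∧ ∃ a ∈ U n i,
      ∀ w ∈ Set.pi univ (fun i => L i (n + 1)),
      |f (Function.update w i b) - f (Function.update w i a)| < δ n} := fun n i => rfl
  have hUL : ∀ n i, U n i ⊆ L i n := by
    intro n i
    cases n with
    | zero => rw [U0, singleton_subset_iff]; exact hzL i
    | succ n => exact fun b hb => hb.1
  have hUS : ∀ n i, U n i ⊆ U (n + 1) i := by
    intro n i a ha
    rw [US]
    exact ⟨(hL i).mono (Nat.le_succ n) (hUL n i ha), a, ha, fun w _ => by simpa using hδ n⟩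
  have hUm : ∀ i, Monotone fun n => U n i := fun i => monotone_nat_of_le_succ fun n => hUS n i
  have hUo : ∀ i, IsOpen (⋃ n, U n i) := by
    intro i
    refine (hL i).isOpen_of fun k a ha hak => ?_
    obtain ⟨n₀, hn₀⟩ := mem_iUnion.1 ha
    let n := max n₀ k
    have han : a ∈ U n i := hUm i (le_max_left _ _) hn₀
    refine ⟨_, isOpen_close (fun j => (hL j).seqc (n + 1)) hf i a (δ n), ?_, ?_⟩
    · intro w _
      simpa using hδ n
    · rintro b ⟨hb, hbk⟩
      refine mem_iUnion.2 ⟨n + 1, ?_⟩
      rw [US]
      exact ⟨(hL i).mono ((le_max_right _ _).trans (Nat.le_succ _)) hbk, a, han, hb⟩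
  have hest : ∀ n, ∀ w ∈ Set.pi univ (U n), |f w - f z| ≤ ε / 2 * (1 - (1 / 2) ^ n) := by
    intro n
    induction n with
    | zero =>
      intro w hw
      have : w = z := funext fun i => by simpa [U0] using hw i (mem_univ i)
      simp [this]
    | succ n ih =>
      intro w hw
      have h1 : ∀ i, ∃ a ∈ U n i, ∀ v ∈ Set.pi univ (fun i => L i (n + 1)),
          |f (Function.update v i (w i)) - f (Function.update v i a)| < δ n := fun i =>
        (hw i (mem_univ i)).2
      choose w' hw' hww' using h1
      have h2 : ∀ s : Finset ι, |f (s.piecewise w w') - f w'| ≤ s.card * δ n := by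
        intro s
        induction s using Finset.induction_on with
        | empty => simp
        | insert i s hi ihs =>
          have hv : s.piecewise w w' ∈ Set.pi univ (fun i => L i (n + 1)) := by
            intro j _
            by_cases hj : j ∈ s
            · simp only [Finset.piecewise, hj, if_true]
              exact hUL (n + 1) j (hw j (mem_univ j))
            · simp only [Finset.piecewise, hj, if_false]
              exact (hL j).mono (Nat.le_succ n) (hUL n j (hw' j))
          have h3 := hww' i _ hv
          have h4 : Function.update (s.piecewise w w') i (w' i) = s.piecewise w w' := by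
            rw [Function.update_eq_self_iff]
            simp [Finset.piecewise, hi]
          rw [h4] at h3
          rw [Finset.piecewise_insert, Finset.card_insert_of_notMem hi]
          have h5 := abs_add_le (f (Function.update (s.piecewise w w') i (w i)) -
            f (s.piecewise w w')) (f (s.piecewise w w') - f w')
          rw [sub_add_sub_cancel] at h5
          push_cast
          linarith
      have h3 := h2 Finset.univ
      rw [Finset.piecewise_univ, Finset.card_univ] at h3
      have h4 := ih w' fun i _ => hw' i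
      have h5 := abs_add_le (f w - f w') (f w' - f z)
      rw [sub_add_sub_cancel] at h5
      have h6 : (Fintype.card ι : ℝ) * δ n ≤ ε / 2 ^ (n + 2) := by
        have h7 : (Fintype.card ι : ℝ) * δ n = (Fintype.card ι / c) * (ε / 2 ^ (n + 2)) := by
          simp only [δ]
          ring
        have h8 : (Fintype.card ι : ℝ) / c ≤ 1 := by
          rw [div_le_one hc]
          simp [c]
        rw [h7]
        have h9 : 0 ≤ ε / 2 ^ (n + 2) := by positivity
        nlinarith
      have h7 : ε / 2 * (1 - (1 / 2) ^ (n + 1)) = ε / 2 * (1 - (1 / 2) ^ n) + ε / 2 ^ (n + 2) := by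
        rw [pow_succ, pow_succ, pow_succ, one_div, inv_pow]
        field_simp
        ring
      rw [h7]
      linarith
  have hmem : Set.pi univ (fun i => ⋃ n, U n i) ∈ 𝓝 z := by
    refine set_pi_mem_nhds finite_univ fun i _ => (hUo i).mem_nhds (mem_iUnion.2 ⟨0, ?_⟩)
    rw [U0]
    exact rfl
  filter_upwards [hmem] with w hw
  have h1 : ∀ i, ∃ n, w i ∈ U n i := fun i => mem_iUnion.1 (hw i (mem_univ i))
  choose n hn using h1
  have h2 := hest (Finset.univ.sup n) w fun i _ => hUm i (Finset.le_sup (Finset.mem_univ i)) (hn i)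
  rw [Real.dist_eq]
  have h3 : (0 : ℝ) ≤ (1 / 2) ^ (Finset.univ.sup n) := by positivity
  nlinarith

/-- Sequentially continuous maps of the product into completely regular spaces are continuous. -/
theorem continuous_of_seqContinuous' {K : ∀ i, ℕ → Set (X i)} (hK : ∀ i, Exhaustion (K i))
    {W : Type w} [TopologicalSpace W] [CompletelyRegularSpace W] {f : (∀ i, X i) → W}
    (hf : SeqContinuous f) : Continuous f := by
  rw [continuous_iff_continuousAt]
  intro z
  rw [ContinuousAt, tendsto_nhds]
  intro O hO hz
  obtain ⟨g, hg, hgz, hgO⟩ := CompletelyRegularSpace.completely_regular (f z) Oᶜ hO.isClosed_compl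
    (fun h => h hz)
  have h1 : Continuous fun w => ((g (f w) : unitInterval) : ℝ) := by
    refine continuous_of_seqContinuous hK ?_
    intro x p hx
    have h2 := (hg.tendsto (f p)).comp (hf hx)
    exact (continuous_subtype_val.tendsto _).comp h2
  have h3 : {w | ((g (f w) : unitInterval) : ℝ) < 1} ∈ 𝓝 z := by
    refine (isOpen_lt h1 continuous_const).mem_nhds ?_
    simp [hgz]
  filter_upwards [h3] with w hw
  by_contra hcon
  have h4 := hgO (show f w ∈ Oᶜ from hcon)
  have hw' : ((g (f w) : unitInterval) : ℝ) < 1 := hw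
  rw [h4] at hw'
  simp at hw'

/-- A sequence converging in `Z` converges in the sequential coreflection of `Z`. -/
theorem tendsto_seqTopology {Z : Type u} [TopologicalSpace Z] {x : ℕ → Z} {p : Z}
    (h : Tendsto x atTop (𝓝 p)) : Tendsto x atTop (@nhds Z (seqTopology Z) p) := by
  rw [@tendsto_nhds Z (seqTopology Z) ℕ]
  intro U hU hp
  by_contra hcon
  have hfr : ∃ᶠ n in atTop, x n ∈ Uᶜ := by
    rw [Filter.Frequently]
    intro h'
    refine hcon ?_
    filter_upwards [h'] with n hn
    by_contra h2
    exact hn h2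
  obtain ⟨φ, hφ, h'⟩ := extraction_of_frequently_atTop hfr
  have hU' : IsSeqClosed Uᶜ := hU
  exact hU' h' (h.comp hφ.tendsto_atTop) hp

theorem seqTopology_eq {Z : Type u} [t : TopologicalSpace Z] [SequentialSpace Z] :
    seqTopology Z = t := by
  refine TopologicalSpace.ext ?_
  funext U
  refine propext ?_
  change IsSeqClosed Uᶜ ↔ IsOpen U
  rw [isSeqClosed_iff_isClosed, isClosed_compl_iff]

end Pi

/-- Sequentially continuous maps on finite products of sequential `c_ω`-spaces. -/
theorem seqContinuous_pi {ι : Type v} [Finite ι] (X : ι → Type u) [∀ i, TopologicalSpace (X i)]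
    [∀ i, T35Space (X i)] [∀ i, SequentialSpace (X i)] (hc : ∀ i, IsCOmega (X i)) :
    (∀ (W : Type w) [TopologicalSpace W] [CompletelyRegularSpace W] (f : (∀ i, X i) → W),
      SeqContinuous f → Continuous f) ∧
    (SequentialSpace (∀ i, X i) ∧ IsCOmega (∀ i, X i) ↔
      @CompletelyRegularSpace (∀ i, X i) (seqTopology (∀ i, X i))) := by
  choose K hK using fun i => exists_exhaustion (hc i)
  refine ⟨fun W _ _ f hf => continuous_of_seqContinuous' hK hf, ?_, ?_⟩
  · rintro ⟨h, -⟩
    rw [seqTopology_eq]
    infer_instance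
  · intro h
    have hid : @Continuous (∀ i, X i) (∀ i, X i) Pi.topologicalSpace (seqTopology (∀ i, X i))
        id := by
      refine @continuous_of_seqContinuous' ι _ X _ _ _ K hK (∀ i, X i)
        (seqTopology (∀ i, X i)) h id ?_
      intro x p hx
      exact tendsto_seqTopology hx
    have hs : SequentialSpace (∀ i, X i) := by
      refine ⟨fun F hF => ?_⟩
      rw [← isOpen_compl_iff]
      have h1 : IsOpen[seqTopology (∀ i, X i)] Fᶜ := by
        change IsSeqClosed Fᶜᶜ
        rwa [compl_compl]
      exact @Continuous.isOpen_preimage _ _ _ (seqTopology (∀ i, X i)) id hid _ h1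
    exact ⟨hs, (exhaustion_pi hK).isCOmega⟩

end Pool.Agent.H64GT
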